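import Pool.Agent.H197Z.BiTransfer

set_option autoImplicit false

open FirstOrder FirstOrder.Language Pool.Agent.H146Z.BiDefs

/-- Every finitely generated non-abelian group that is universally equivalent to a free metabelian
group of finite rank at least two is bi-interpretable with the arithmetic of natural numbers. -/
theorem Pool.Agent.Results.MP_c25739_lc.ABiInterp.result (G : Type) [Group G] [Group.FG G]
    (hna : ∃ a b : G, a * b ≠ b * a)
    (hrig : ∃ n : ℕ, 2 ≤ n ∧ ∀ φ : Lgrp.Sentence, BoundedFormula.IsUniversal φ →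
      (G ⊨ φ ↔ FreeMetab (Fin n) ⊨ φ)) :
    BiInterp Lgrp Lar G ℕ := by
  obtain ⟨n, -, h⟩ := hrig
  exact Pool.Agent.H197Z.Bi.biInterp_of_univEquiv hna h
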